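import Pool.Agent.Y838.PG.Defs

/-!
# The growth bound of a strongly continuous group
-/

set_option autoImplicit false

open Set Filter Topology MeasureTheory

noncomputable section

namespace Pool.Agent.Y838.PG

variable {E : Type*} [NormedAddCommGroup E] [NormedSpace ℂ E] [CompleteSpace E]
  {T : ℝ → E →L[ℂ] E}

lemma IsGrp.bdd (hT : IsGrp T) (L : ℝ) : ∃ M : ℝ, 0 < M ∧ ∀ t ∈ Icc (-L) L, ‖T t‖ ≤ M := by
  obtain ⟨C, hC⟩ := banach_steinhaus (g := fun t : Icc (-L) L => T t.1) (by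
    intro x
    obtain ⟨C, hC⟩ := (isCompact_Icc (a := -L) (b := L)).exists_bound_of_continuousOn
      (hT.cont x).continuousOn
    exact ⟨C, fun t => hC t.1 t.2⟩)
  exact ⟨max C 1, by positivity, fun t ht => (hC ⟨t, ht⟩).trans (le_max_left _ _)⟩

omit [CompleteSpace E] in
lemma IsGrp.nat (hT : IsGrp T) (n : ℕ) (t : ℝ) : T (n * t) = T t ^ n := by
  induction n with
  | zero => simp [hT.zero]
  | succ n ih =>
    rw [pow_succ, ← ih, ← hT.add]
    congr 1
    push_cast; ring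

omit [CompleteSpace E] in
lemma IsGrp.rev (hT : IsGrp T) : IsGrp fun t => T (-t) :=
  ⟨by simp [hT.zero], fun s t => by rw [neg_add, hT.add], fun x => (hT.cont x).comp continuous_neg⟩

omit [CompleteSpace E] in
lemma IsGrp.mul_neg (hT : IsGrp T) (t : ℝ) : T t * T (-t) = 1 := by
  rw [← hT.add, add_neg_cancel, hT.zero]

omit [CompleteSpace E] in
lemma mul_pow_le (A B : E →L[ℂ] E) (n : ℕ) : ‖A * B ^ n‖ ≤ ‖A‖ * ‖B‖ ^ n := by
  induction n with
  | zero => simp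
  | succ n ih =>
    rw [pow_succ, ← mul_assoc, pow_succ, ← mul_assoc]
    exact (norm_mul_le _ _).trans (by gcongr)

lemma IsGrp.exp_of (hT : IsGrp T) {t0 β : ℝ} (ht0 : 0 < t0) (h : ‖T t0‖ ≤ Real.exp (β * t0)) :
    ∃ M : ℝ, 0 < M ∧ ∀ t, 0 ≤ t → ‖T t‖ ≤ M * Real.exp (β * t) := by
  obtain ⟨M, hM, hb⟩ := hT.bdd t0
  refine ⟨M * Real.exp (|β| * t0), by positivity, fun t ht => ?_⟩
  set n := ⌊t / t0⌋₊ with hn
  set s := t - n * t0 with hs
  have hs0 : 0 ≤ s := by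
    have h1 : (n : ℝ) ≤ t / t0 := Nat.floor_le (by positivity)
    have h2 : n * t0 ≤ t := (le_div_iff₀ ht0).1 h1
    rw [hs]; linarith
  have hs1 : s ≤ t0 := by
    have h1 : t / t0 < n + 1 := Nat.lt_floor_add_one _
    have h2 : t < (n + 1) * t0 := (div_lt_iff₀ ht0).1 h1
    rw [hs]; linarith
  have ht' : t = s + n * t0 := by rw [hs]; ring
  have h3 : ‖T t‖ ≤ ‖T s‖ * ‖T t0‖ ^ n := by
    conv_lhs => rw [ht', hT.add, hT.nat]
    exact mul_pow_le _ _ _
  have h4 : ‖T t0‖ ^ n ≤ Real.exp (β * (n * t0)) := by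
    calc ‖T t0‖ ^ n ≤ (Real.exp (β * t0)) ^ n := by gcongr
      _ = Real.exp (β * (n * t0)) := by rw [← Real.exp_nat_mul]; congr 1; ring
  have h5 : Real.exp (β * (n * t0)) ≤ Real.exp (|β| * t0) * Real.exp (β * t) := by
    rw [← Real.exp_add]
    apply Real.exp_le_exp.2
    have h6 : -(β * s) ≤ |β| * t0 := by
      calc -(β * s) ≤ |β * s| := neg_le_abs _
        _ = |β| * s := by rw [abs_mul, abs_of_nonneg hs0]
        _ ≤ |β| * t0 := by gcongr
    have h7 : β * (n * t0) = β * t - β * s := by rw [hs]; ring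
    linarith
  calc ‖T t‖ ≤ ‖T s‖ * ‖T t0‖ ^ n := h3
    _ ≤ M * (Real.exp (|β| * t0) * Real.exp (β * t)) := by
        gcongr
        · exact hb s ⟨by linarith, hs1⟩
        · exact h4.trans h5
    _ = _ := by ring

/-- the exponents of the bounds of the group -/
def WW (T : ℝ → E →L[ℂ] E) : Set ℝ :=
  {ω | ∃ M : ℝ, 0 < M ∧ ∀ t, 0 ≤ t → ‖T t‖ ≤ M * Real.exp (ω * t)}

/-- the growth bound -/
def om (T : ℝ → E →L[ℂ] E) : ℝ := sInf (WW T)

lemma IsGrp.ne (hT : IsGrp T) : (WW T).Nonempty := by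
  refine ⟨Real.log (‖T 1‖ + 1), hT.exp_of one_pos ?_⟩
  rw [mul_one, Real.exp_log (by positivity)]
  linarith

lemma IsGrp.bddBelow [Nontrivial E] (hT : IsGrp T) : BddBelow (WW T) := by
  obtain ⟨ω', M', hM', hb'⟩ := hT.rev.ne
  refine ⟨-ω', ?_⟩
  rintro ω ⟨M, hM, hb⟩
  by_contra hcon
  push Not at hcon
  set δ := -(ω + ω') with hδ
  have hδ0 : 0 < δ := by rw [hδ]; linarith
  -- `1 ≤ M M' exp (-δ t)`
  have h1 : ∀ t : ℝ, 0 ≤ t → 1 ≤ M * M' * Real.exp (-(δ * t)) := by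
    intro t ht
    have h2 : ‖T t * T (-t)‖ = 1 := by rw [hT.mul_neg]; exact norm_one
    calc (1 : ℝ) = ‖T t * T (-t)‖ := h2.symm
      _ ≤ ‖T t‖ * ‖T (-t)‖ := norm_mul_le _ _
      _ ≤ (M * Real.exp (ω * t)) * (M' * Real.exp (ω' * t)) := by
          gcongr
          · exact hb t ht
          · exact hb' t ht
      _ = M * M' * Real.exp (-(δ * t)) := by
          rw [show -(δ * t) = ω * t + ω' * t by rw [hδ]; ring, Real.exp_add]; ring
  have h3 : Tendsto (fun t : ℝ => M * M' * Real.exp (-(δ * t))) atTop (𝓝 (M * M' * 0)) := by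
    apply Tendsto.const_mul
    exact Real.tendsto_exp_neg_atTop_nhds_zero.comp (tendsto_id.const_mul_atTop hδ0)
  rw [mul_zero] at h3
  have h4 : ∀ᶠ t : ℝ in atTop, M * M' * Real.exp (-(δ * t)) < 1 := h3.eventually_lt_const one_pos
  obtain ⟨t, ht, ht0⟩ := (h4.and (eventually_ge_atTop 0)).exists
  exact absurd (h1 t ht0) (not_le.2 ht)

lemma IsGrp.mem_of_lt (hT : IsGrp T) {ω : ℝ} (h : om T < ω) : ω ∈ WW T := by
  obtain ⟨ω', ⟨M, hM, hb⟩, hlt⟩ := exists_lt_of_csInf_lt hT.ne h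
  refine ⟨M, hM, fun t ht => (hb t ht).trans ?_⟩
  gcongr

lemma IsGrp.low [Nontrivial E] (hT : IsGrp T) {t : ℝ} (ht : 0 < t) :
    Real.exp (om T * t) ≤ ‖T t‖ := by
  by_contra hcon
  push Not at hcon
  have h1 : Tendsto (fun β : ℝ => Real.exp (β * t)) (𝓝 (om T)) (𝓝 (Real.exp (om T * t))) :=
    (Real.continuous_exp.comp (continuous_id.mul continuous_const)).tendsto _
  have h2 : ∀ᶠ β in 𝓝 (om T), ‖T t‖ < Real.exp (β * t) := h1.eventually_const_lt hcon
  have h3 : ∀ᶠ β in 𝓝[<] (om T), ‖T t‖ < Real.exp (β * t) := h2.filter_mono nhdsWithin_le_nhds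
  obtain ⟨β, hβ, hβ'⟩ := (h3.and self_mem_nhdsWithin).exists
  have h4 : β ∈ WW T := hT.exp_of ht hβ.le
  exact absurd (csInf_le hT.bddBelow h4) (not_le.2 hβ')

lemma IsGrp.lim [Nontrivial E] (hT : IsGrp T) :
    Tendsto (fun t => Real.log ‖T t‖ / t) atTop (𝓝 (om T)) := by
  rw [Metric.tendsto_nhds]
  intro ε hε
  obtain ⟨M, hM, hb⟩ := hT.mem_of_lt (show om T < om T + ε / 2 by linarith)
  have h1 : Tendsto (fun t : ℝ => Real.log M / t) atTop (𝓝 0) := tendsto_const_nhds.div_atTop tendsto_id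
  have h2 : ∀ᶠ t : ℝ in atTop, Real.log M / t < ε / 2 := h1.eventually_lt_const (by linarith)
  filter_upwards [h2, eventually_gt_atTop 0] with t ht ht0
  have h3 : 0 < ‖T t‖ := lt_of_lt_of_le (Real.exp_pos _) (hT.low ht0)
  have h4 : om T * t ≤ Real.log ‖T t‖ := by
    rw [← Real.log_exp (om T * t)]
    exact Real.log_le_log (Real.exp_pos _) (hT.low ht0)
  have h5 : Real.log ‖T t‖ ≤ Real.log M + (om T + ε / 2) * t := by
    rw [← Real.log_exp ((om T + ε / 2) * t), ← Real.log_mul hM.ne' (Real.exp_pos _).ne']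
    exact Real.log_le_log h3 (hb t ht0.le)
  rw [Real.dist_eq, abs_lt]
  constructor
  · have : om T ≤ Real.log ‖T t‖ / t := (le_div_iff₀ ht0).2 h4
    linarith
  · have : Real.log ‖T t‖ / t ≤ (Real.log M + (om T + ε / 2) * t) / t := by gcongr
    rw [add_div, mul_div_assoc, div_self ht0.ne', mul_one] at this
    linarith

end Pool.Agent.Y838.PG
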