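import Mathlib

/-!
# Positive groups on ordered Hilbert spaces: definitions
-/

set_option autoImplicit false

open Set Filter Topology MeasureTheory

noncomputable section

namespace Pool.Agent.Y838.PG

/-- a closed, normal and generating cone in a real normed space -/
structure OrdCone {H : Type*} [NormedAddCommGroup H] [InnerProductSpace ℝ H] (C : Set H) : Prop where
  closed : IsClosed C
  zero : (0 : H) ∈ C
  add : ∀ x ∈ C, ∀ y ∈ C, x + y ∈ C
  smul : ∀ r : ℝ, 0 ≤ r → ∀ x ∈ C, r • x ∈ C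
  normal : ∃ c : ℝ, 0 < c ∧ ∀ x y, x ∈ C → y - x ∈ C → ‖x‖ ≤ c * ‖y‖
  gen : ∀ x, ∃ y ∈ C, ∃ z ∈ C, x = y - z

/-- `E` is, with the embedding `J`, the complexification of the real Hilbert space `H` -/
structure IsCplx {H E : Type*} [NormedAddCommGroup H] [InnerProductSpace ℝ H]
    [NormedAddCommGroup E] [InnerProductSpace ℂ E] (J : H →ₗ[ℝ] E) : Prop where
  inner : ∀ x y, inner ℂ (J x) (J y) = ((inner ℝ x y : ℝ) : ℂ)
  span : ∀ z, ∃ x y, z = J x + Complex.I • J y

/-- a strongly continuous group of bounded operators -/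
structure IsGrp {E : Type*} [NormedAddCommGroup E] [NormedSpace ℂ E] (T : ℝ → E →L[ℂ] E) :
    Prop where
  zero : T 0 = 1
  add : ∀ s t, T (s + t) = T s * T t
  cont : ∀ x, Continuous fun t => T t x

/-- `x` is in the domain of the generator of the group, which maps `x` to `y` -/
def IsGen {E : Type*} [NormedAddCommGroup E] [NormedSpace ℂ E] (T : ℝ → E →L[ℂ] E) (x y : E) :
    Prop :=
  HasDerivAt (fun t => T t x) y 0

/-- `R` is the resolvent `(z - A)⁻¹` of the generator `A` of the group at the point `z` -/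
def IsRes {E : Type*} [NormedAddCommGroup E] [NormedSpace ℂ E] (T : ℝ → E →L[ℂ] E) (z : ℂ)
    (R : E →L[ℂ] E) : Prop :=
  (∀ x, IsGen T (R x) (z • R x - x)) ∧ ∀ x y, IsGen T x y → R (z • x - y) = x

/-- the spectrum of the generator of the group -/
def Spec {E : Type*} [NormedAddCommGroup E] [NormedSpace ℂ E] (T : ℝ → E →L[ℂ] E) : Set ℂ :=
  {z | ¬ ∃ R, IsRes T z R}

end Pool.Agent.Y838.PG
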