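import Pool.Agent.Y838.PG.Main

/-!
# MP_e5770a_an: the spectral bound of a positive group on an ordered Hilbert space is its
growth bound
-/

set_option autoImplicit false

open Set Filter Topology

namespace Pool.Agent.Y838.PG.Equal

open Pool.Agent.Y838.PG

/-- Let `H ≠ 0` be a real Hilbert space with a closed, normal and generating cone `C`, let `E`
be its complexification and `T` a strongly continuous group on `E` whose operators `T t` with
`t ≥ 0` are positive. Then the growth bound `ω = lim log ‖T t‖ / t` exists, it is the supremum of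
the real parts of the spectrum of the generator, and it belongs to the spectrum. -/
theorem spectralBound_eq_growthBound {H E : Type*} [NormedAddCommGroup H] [InnerProductSpace ℝ H] [CompleteSpace H]
    [Nontrivial H] [NormedAddCommGroup E] [InnerProductSpace ℂ E] [CompleteSpace E]
    {J : H →ₗ[ℝ] E} (hJ : IsCplx J) {C : Set H} (hC : OrdCone C) {T : ℝ → E →L[ℂ] E}
    (hT : IsGrp T) (hpos : ∀ t : ℝ, 0 ≤ t → ∀ x ∈ C, ∃ y ∈ C, T t (J x) = J y) :
    ∃ ω : ℝ, Tendsto (fun t => Real.log ‖T t‖ / t) atTop (𝓝 ω) ∧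
      IsLUB (Complex.re '' Spec T) ω ∧ (ω : ℂ) ∈ Spec T := by
  have : Nontrivial E := by
    obtain ⟨x, hx⟩ := exists_ne (0 : H)
    refine ⟨⟨J x, 0, fun h => hx ?_⟩⟩
    rw [← norm_eq_zero, ← hJ.norm, h, norm_zero]
  have h := mem_spec hT hJ hC hpos
  refine ⟨om T, hT.lim, ⟨?_, ?_⟩, h⟩
  · rintro _ ⟨z, hz, rfl⟩
    exact Spec_le hT hz
  · intro b hb
    simpa using hb ⟨_, h, rfl⟩

end Pool.Agent.Y838.PG.Equal
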