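import Pool.Agent.Y838.PG.Basic

/-!
# The Laplace transform of a strongly continuous group is the resolvent of the generator
-/

set_option autoImplicit false

open Set Filter Topology MeasureTheory

noncomputable section

namespace Pool.Agent.Y838.PG

variable {E : Type*} [NormedAddCommGroup E] [NormedSpace ℂ E] [CompleteSpace E]
  {T : ℝ → E →L[ℂ] E}

/-- the weighted orbit -/
def orb (T : ℝ → E →L[ℂ] E) (z : ℂ) (x : E) (t : ℝ) : E := Complex.exp (-(z * t)) • T t x

omit [CompleteSpace E] in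
lemma orb_cont (hT : IsGrp T) (z : ℂ) (x : E) : Continuous (orb T z x) := by
  have h : Continuous fun t : ℝ => Complex.exp (-(z * t)) := by fun_prop
  exact h.smul (hT.cont x)

omit [CompleteSpace E] in
lemma orb_norm (z : ℂ) (x : E) (t : ℝ) : ‖orb T z x t‖ = Real.exp (-(z.re * t)) * ‖T t x‖ := by
  unfold orb
  rw [norm_smul, Complex.norm_exp]
  simp

lemma orb_bound (hT : IsGrp T) {a : ℝ} (ha : om T < a) : ∃ M : ℝ, 0 < M ∧ ∃ δ : ℝ, 0 < δ ∧
    ∀ z : ℂ, a ≤ z.re → ∀ x, ∀ t, 0 ≤ t → ‖orb T z x t‖ ≤ M * ‖x‖ * Real.exp (-δ * t) := by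
  obtain ⟨M, hM, hb⟩ := hT.mem_of_lt (show om T < (om T + a) / 2 by linarith)
  refine ⟨M, hM, a - (om T + a) / 2, by linarith, fun z hz x t ht => ?_⟩
  rw [orb_norm]
  have h1 : ‖T t x‖ ≤ M * Real.exp ((om T + a) / 2 * t) * ‖x‖ :=
    ((T t).le_opNorm x).trans (by gcongr; exact hb t ht)
  have h2 : Real.exp (-(z.re * t)) ≤ Real.exp (-(a * t)) := by
    apply Real.exp_le_exp.2
    have := mul_le_mul_of_nonneg_right hz ht
    linarith
  calc Real.exp (-(z.re * t)) * ‖T t x‖
      ≤ Real.exp (-(a * t)) * (M * Real.exp ((om T + a) / 2 * t) * ‖x‖) := by gcongr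
    _ = M * ‖x‖ * (Real.exp (-(a * t)) * Real.exp ((om T + a) / 2 * t)) := by ring
    _ = _ := by rw [← Real.exp_add]; congr 2; ring

lemma orb_int (hT : IsGrp T) {z : ℂ} (hz : om T < z.re) (x : E) (h : ℝ) :
    IntegrableOn (orb T z x) (Ioi h) := by
  have h0 : IntegrableOn (orb T z x) (Ioi 0) := by
    obtain ⟨M, hM, δ, hδ, hb⟩ := orb_bound hT hz
    refine Integrable.mono' ((exp_neg_integrableOn_Ioi 0 hδ).const_mul (M * ‖x‖))
      (orb_cont hT z x).aestronglyMeasurable ?_
    filter_upwards [self_mem_ae_restrict measurableSet_Ioi] with t ht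
    exact hb z le_rfl x t (le_of_lt ht)
  have h1 : IntegrableOn (orb T z x) (Icc h 0) := (orb_cont hT z x).continuousOn.integrableOn_Icc
  refine (h1.union h0).mono_set ?_
  intro t ht
  rcases le_or_gt t 0 with h2 | h2
  · exact Or.inl ⟨le_of_lt ht, h2⟩
  · exact Or.inr h2

/-- the Laplace transform -/
def lapl (T : ℝ → E →L[ℂ] E) (z : ℂ) (x : E) : E := ∫ t in Ioi (0 : ℝ), orb T z x t

lemma lapl_bound (hT : IsGrp T) {a : ℝ} (ha : om T < a) : ∃ K : ℝ, 0 < K ∧
    ∀ z : ℂ, a ≤ z.re → ∀ x, ‖lapl T z x‖ ≤ K * ‖x‖ := by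
  obtain ⟨M, hM, δ, hδ, hb⟩ := orb_bound hT ha
  have hi := exp_neg_integrableOn_Ioi 0 hδ
  have h0 : 0 ≤ ∫ t in Ioi (0 : ℝ), Real.exp (-δ * t) := by positivity
  refine ⟨M * ((∫ t in Ioi (0 : ℝ), Real.exp (-δ * t)) + 1), by positivity, fun z hz x => ?_⟩
  unfold lapl
  calc ‖∫ t in Ioi (0 : ℝ), orb T z x t‖
      ≤ ∫ t in Ioi (0 : ℝ), M * ‖x‖ * Real.exp (-δ * t) := by
        apply norm_integral_le_of_norm_le (hi.const_mul _)
        filter_upwards [self_mem_ae_restrict measurableSet_Ioi] with t ht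
        exact hb z hz x t (le_of_lt ht)
    _ = M * (∫ t in Ioi (0 : ℝ), Real.exp (-δ * t)) * ‖x‖ := by
        rw [integral_const_mul]; ring
    _ ≤ M * ((∫ t in Ioi (0 : ℝ), Real.exp (-δ * t)) + 1) * ‖x‖ := by gcongr; linarith

lemma exists_Lap (hT : IsGrp T) {z : ℂ} (hz : om T < z.re) :
    ∃ L : E →L[ℂ] E, ∀ x, L x = lapl T z x := by
  obtain ⟨K, hK, hb⟩ := lapl_bound hT hz
  refine ⟨LinearMap.mkContinuous ⟨⟨lapl T z, fun x y => ?_⟩, fun c x => ?_⟩ K
    (fun x => hb z le_rfl x), fun x => rfl⟩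
  · unfold lapl
    rw [← integral_add (orb_int hT hz x 0) (orb_int hT hz y 0)]
    congr 1
    ext t
    simp [orb]
  · unfold lapl
    simp only [RingHom.id_apply]
    rw [← integral_smul]
    congr 1
    ext t
    simp [orb, smul_comm c]

open Classical in
/-- the Laplace transform as a bounded operator -/
def Lap (T : ℝ → E →L[ℂ] E) (z : ℂ) : E →L[ℂ] E :=
  if h : ∃ L : E →L[ℂ] E, ∀ x, L x = lapl T z x then h.choose else 0

lemma Lap_apply (hT : IsGrp T) {z : ℂ} (hz : om T < z.re) (x : E) : Lap T z x = lapl T z x := by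
  unfold Lap
  rw [dif_pos (exists_Lap hT hz)]
  exact (exists_Lap hT hz).choose_spec x

lemma Lap_bound (hT : IsGrp T) {a : ℝ} (ha : om T < a) : ∃ K : ℝ, 0 < K ∧
    ∀ z : ℂ, a ≤ z.re → ‖Lap T z‖ ≤ K := by
  obtain ⟨K, hK, hb⟩ := lapl_bound hT ha
  refine ⟨K, hK, fun z hz => ContinuousLinearMap.opNorm_le_bound _ hK.le fun x => ?_⟩
  rw [Lap_apply hT (lt_of_lt_of_le ha hz)]
  exact hb z hz x

omit [CompleteSpace E] in
lemma shift (g : ℝ → E) (h : ℝ) : ∫ t in Ioi (0 : ℝ), g (t + h) = ∫ t in Ioi h, g t := by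
  rw [← integral_indicator measurableSet_Ioi, ← integral_indicator measurableSet_Ioi,
    ← integral_add_right_eq_self ((Ioi h).indicator g) h]
  congr 1
  ext t
  by_cases ht : 0 < t
  · rw [indicator_of_mem (show t ∈ Ioi (0 : ℝ) from ht),
      indicator_of_mem (show t + h ∈ Ioi h by simpa using ht)]
  · rw [indicator_of_notMem (show t ∉ Ioi (0 : ℝ) from ht),
      indicator_of_notMem (show t + h ∉ Ioi h by simpa using ht)]

lemma act (hT : IsGrp T) {z : ℂ} (hz : om T < z.re) (x : E) (h : ℝ) :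
    T h (lapl T z x) = Complex.exp (z * h) • (lapl T z x - ∫ s in (0 : ℝ)..h, orb T z x s) := by
  have h1 : (lapl T z x - ∫ s in (0 : ℝ)..h, orb T z x s) = ∫ s in Ioi h, orb T z x s := by
    rw [← intervalIntegral.integral_Ioi_sub_Ioi' (orb_int hT hz x 0) (orb_int hT hz x h)]
    unfold lapl
    abel
  rw [h1, ← shift, ← integral_smul]
  unfold lapl
  rw [← ContinuousLinearMap.integral_comp_comm _ (orb_int hT hz x 0)]
  congr 1
  ext t
  unfold orb
  rw [map_smul, smul_smul, ← Complex.exp_add, add_comm t h, hT.add]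
  congr 2
  push_cast; ring

lemma lap_gen (hT : IsGrp T) {z : ℂ} (hz : om T < z.re) (x : E) :
    IsGen T (lapl T z x) (z • lapl T z x - x) := by
  unfold IsGen
  have h1 : (fun t => T t (lapl T z x)) = fun h : ℝ =>
      Complex.exp (z * h) • (lapl T z x - ∫ s in (0 : ℝ)..h, orb T z x s) :=
    funext fun h => act hT hz x h
  rw [h1]
  have h2 : HasDerivAt (fun h : ℝ => ∫ s in (0 : ℝ)..h, orb T z x s) (orb T z x 0) 0 :=
    ((orb_cont hT z x).integral_hasStrictDerivAt 0 0).hasDerivAt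
  have h3 : HasDerivAt (fun h : ℝ => Complex.exp (z * h)) z 0 := by
    have h4 : HasDerivAt (fun h : ℝ => z * (h : ℂ)) z 0 := by
      simpa using (Complex.ofRealCLM.hasDerivAt (x := (0 : ℝ))).const_mul z
    have h5 := h4.cexp
    simpa using h5
  have h6 := h3.smul (h2.const_sub (lapl T z x))
  have h7 : orb T z x 0 = x := by simp [orb, hT.zero]
  rw [h7] at h6
  refine h6.congr_deriv ?_
  simp only [intervalIntegral.integral_same, Complex.ofReal_zero, mul_zero, Complex.exp_zero,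
    one_smul, sub_zero, smul_neg]
  abel

omit [CompleteSpace E] in
lemma gen_all (hT : IsGrp T) {x y : E} (h : IsGen T x y) (t : ℝ) :
    HasDerivAt (fun s => T s x) (T t y) t := by
  unfold IsGen at h
  have h1 : HasDerivAt (fun s => T (s - t) x) y t := by
    have h2 : HasDerivAt (fun s => T s x) y (t - t) := by rwa [sub_self]
    simpa using h2.comp_sub_const t t
  have h3 : HasDerivAt (fun s => T t (T (s - t) x)) (T t y) t :=
    ((T t).restrictScalars ℝ).hasFDerivAt.comp_hasDerivAt t h1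
  have h5 : (fun s => T s x) = fun s => T t (T (s - t) x) := by
    ext s
    have h4 := hT.add t (s - t)
    rw [add_sub_cancel] at h4
    rw [h4]; rfl
  rw [h5]
  exact h3

lemma lap_left (hT : IsGrp T) {z : ℂ} (hz : om T < z.re) {x y : E} (h : IsGen T x y) :
    lapl T z (z • x - y) = x := by
  have h1 : ∀ t ∈ Ici (0 : ℝ), HasDerivAt (fun s => -orb T z x s) (orb T z (z • x - y) t) t := by
    intro t _
    have h3 : HasDerivAt (fun h : ℝ => Complex.exp (-(z * h))) (Complex.exp (-(z * t)) * -z) t := by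
      have h4 : HasDerivAt (fun h : ℝ => -(z * (h : ℂ))) (-z) t := by
        simp only [← neg_mul]
        simpa using (Complex.ofRealCLM.hasDerivAt (x := t)).const_mul (-z)
      exact h4.cexp
    have h6 : HasDerivAt (fun s => -orb T z x s) _ t := (h3.smul (gen_all hT h t)).neg
    refine h6.congr_deriv ?_
    unfold orb
    simp only [map_sub, map_smul, smul_sub, smul_smul, mul_neg, neg_smul]
    abel
  have h2 : Tendsto (fun s => -orb T z x s) atTop (𝓝 0) := by
    rw [← neg_zero]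
    apply Tendsto.neg
    obtain ⟨M, hM, δ, hδ, hb⟩ := orb_bound hT hz
    apply squeeze_zero_norm' (a := fun t => M * ‖x‖ * Real.exp (-(δ * t)))
    · filter_upwards [eventually_ge_atTop 0] with t ht
      have := hb z le_rfl x t ht
      rwa [neg_mul] at this
    · have h3 : Tendsto (fun t : ℝ => M * ‖x‖ * Real.exp (-(δ * t))) atTop (𝓝 (M * ‖x‖ * 0)) := by
        apply Tendsto.const_mul
        exact Real.tendsto_exp_neg_atTop_nhds_zero.comp (tendsto_id.const_mul_atTop hδ)
      rwa [mul_zero] at h3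
  unfold lapl
  rw [integral_Ioi_of_hasDerivAt_of_tendsto' h1 (orb_int hT hz _ 0) h2]
  simp [orb, hT.zero]

lemma Lap_res (hT : IsGrp T) {z : ℂ} (hz : om T < z.re) : IsRes T z (Lap T z) := by
  constructor
  · intro x
    rw [Lap_apply hT hz]
    exact lap_gen hT hz x
  · intro x y h
    rw [Lap_apply hT hz]
    exact lap_left hT hz h

omit [CompleteSpace E] in
lemma res_id {z w : ℂ} {R S : E →L[ℂ] E} (hR : IsRes T z R) (hS : IsRes T w S) (x : E) :
    S x = R x + (z - w) • R (S x) := by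
  have h := hR.2 (S x) (w • S x - x) (hS.1 x)
  rw [show z • S x - (w • S x - x) = x + (z - w) • S x by rw [sub_smul]; abel, map_add,
    map_smul] at h
  exact h.symm

end Pool.Agent.Y838.PG
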