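import Pool.Agent.Y838.PG.Lapl
import Pool.Agent.TH277.HT.Pl

/-!
# Square integrability of the orbits on the critical line
-/

set_option autoImplicit false

open Set Filter Topology MeasureTheory FourierTransform

noncomputable section

namespace Pool.Agent.Y838.PG

variable {E : Type*} [NormedAddCommGroup E] [InnerProductSpace ℂ E] [CompleteSpace E]
  {T : ℝ → E →L[ℂ] E}

lemma sq_int (hT : IsGrp T) {z : ℂ} (hz : om T < z.re) (x : E) :
    IntegrableOn (fun t => ‖orb T z x t‖ ^ 2) (Ioi 0) := by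
  obtain ⟨M, hM, δ, hδ, hb⟩ := orb_bound hT hz
  refine Integrable.mono' ((exp_neg_integrableOn_Ioi 0 (show 0 < 2 * δ by linarith)).const_mul
    ((M * ‖x‖) ^ 2)) ((orb_cont hT z x).norm.pow 2).aestronglyMeasurable ?_
  filter_upwards [self_mem_ae_restrict measurableSet_Ioi] with t ht
  rw [norm_pow, norm_norm]
  calc ‖orb T z x t‖ ^ 2 ≤ (M * ‖x‖ * Real.exp (-δ * t)) ^ 2 := by
        gcongr
        exact hb z le_rfl x t (le_of_lt ht)
    _ = (M * ‖x‖) ^ 2 * (Real.exp (-δ * t)) ^ 2 := by ring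
    _ = _ := by rw [← Real.exp_nat_mul]; congr 2; push_cast; ring

omit [InnerProductSpace ℂ E] [CompleteSpace E] in
lemma ofReal_sq (v : E) : ‖v‖ₑ ^ 2 = ENNReal.ofReal (‖v‖ ^ 2) := by
  rw [← ofReal_norm, ENNReal.ofReal_pow (norm_nonneg _)]

lemma planch (hT : IsGrp T) {a : ℝ} (ha : om T < a) (x : E) :
    ∫⁻ ξ : ℝ, ‖Lap T ((a : ℂ) + (2 * Real.pi * ξ : ℝ) * Complex.I) x‖ₑ ^ 2 =
      ENNReal.ofReal (∫ t in Ioi (0 : ℝ), ‖orb T (a : ℂ) x t‖ ^ 2) := by
  have hre : om T < ((a : ℂ)).re := by simpa using ha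
  set f : ℝ → E := (Ioi (0 : ℝ)).indicator (orb T (a : ℂ) x) with hf
  have h1 : Integrable f := (integrable_indicator_iff measurableSet_Ioi).2 (orb_int hT hre x 0)
  have hsq : (fun t => ‖f t‖ ^ 2) = (Ioi (0 : ℝ)).indicator fun t => ‖orb T (a : ℂ) x t‖ ^ 2 := by
    ext t
    by_cases ht : t ∈ Ioi (0 : ℝ)
    · rw [hf, indicator_of_mem ht, indicator_of_mem ht]
    · rw [hf, indicator_of_notMem ht, indicator_of_notMem ht]; simp
  have h2 : MemLp f 2 := by
    rw [memLp_two_iff_integrable_sq_norm h1.aestronglyMeasurable, hsq]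
    exact (integrable_indicator_iff measurableSet_Ioi).2 (sq_int hT hre x)
  have h3 := Pool.Agent.TH277.HT.plancherel f h1 h2
  have h4 : ∀ ξ : ℝ, 𝓕 f ξ = Lap T ((a : ℂ) + (2 * Real.pi * ξ : ℝ) * Complex.I) x := by
    intro ξ
    rw [Real.fourier_real_eq_integral_exp_smul, Lap_apply hT (by simpa using ha)]
    unfold lapl
    rw [← integral_indicator measurableSet_Ioi]
    congr 1
    ext t
    by_cases ht : t ∈ Ioi (0 : ℝ)
    · rw [hf, indicator_of_mem ht, indicator_of_mem ht]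
      unfold orb
      rw [smul_smul, ← Complex.exp_add]
      congr 2
      push_cast; ring
    · rw [hf, indicator_of_notMem ht, indicator_of_notMem ht, smul_zero]
  simp only [h4] at h3
  rw [h3, ofReal_integral_eq_lintegral_ofReal (sq_int hT hre x)
    (ae_of_all _ fun t => by positivity), ← lintegral_indicator measurableSet_Ioi]
  congr 1
  ext t
  by_cases ht : t ∈ Ioi (0 : ℝ)
  · rw [hf, indicator_of_mem ht, indicator_of_mem ht, ofReal_sq]
  · rw [hf, indicator_of_notMem ht, indicator_of_notMem ht]; simp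

lemma compare (hT : IsGrp T) {K δ : ℝ} (hK : 0 < K) (hδ : 0 < δ)
    (h : ∀ z : ℂ, om T < z.re → z.re ≤ om T + δ → ‖Lap T z‖ ≤ K) {a : ℝ} (ha : om T < a)
    (ha' : a ≤ om T + δ) (x : E) :
    ∫ t in Ioi (0 : ℝ), ‖orb T (a : ℂ) x t‖ ^ 2 ≤
      (1 + δ * K) ^ 2 * ∫ t in Ioi (0 : ℝ), ‖orb T ((om T + δ : ℝ) : ℂ) x t‖ ^ 2 := by
  have h0 : 0 ≤ ∫ t in Ioi (0 : ℝ), ‖orb T ((om T + δ : ℝ) : ℂ) x t‖ ^ 2 := by positivity
  rw [← ENNReal.ofReal_le_ofReal_iff (by positivity), ← planch hT ha,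
    ENNReal.ofReal_mul (by positivity), ← planch hT (by linarith : om T < om T + δ),
    ← lintegral_const_mul']
  · apply lintegral_mono
    intro ξ
    simp only
    rw [ofReal_sq, ofReal_sq, ← ENNReal.ofReal_mul (by positivity), ← mul_pow]
    apply ENNReal.ofReal_le_ofReal
    gcongr
    set z : ℂ := (a : ℂ) + (2 * Real.pi * ξ : ℝ) * Complex.I with hz
    set w : ℂ := ((om T + δ : ℝ) : ℂ) + (2 * Real.pi * ξ : ℝ) * Complex.I with hw
    have hzr : z.re = a := by simp [hz]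
    have hwr : w.re = om T + δ := by simp [hw]
    have hR := Lap_res hT (z := z) (by rw [hzr]; exact ha)
    have hS := Lap_res hT (z := w) (by rw [hwr]; linarith)
    have h1 := res_id hR hS x
    have h2 : Lap T z x = Lap T w x - (z - w) • Lap T z (Lap T w x) := eq_sub_of_add_eq h1.symm
    rw [h2]
    have h3 : z - w = ((a - (om T + δ) : ℝ) : ℂ) := by rw [hz, hw]; push_cast; ring
    have h4 : ‖z - w‖ ≤ δ := by
      rw [h3, Complex.norm_real, Real.norm_eq_abs, abs_le]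
      constructor <;> linarith
    calc ‖Lap T w x - (z - w) • Lap T z (Lap T w x)‖
        ≤ ‖Lap T w x‖ + ‖(z - w) • Lap T z (Lap T w x)‖ := norm_sub_le _ _
      _ ≤ ‖Lap T w x‖ + δ * (K * ‖Lap T w x‖) := by
          rw [norm_smul]
          gcongr
          exact ((Lap T z).le_opNorm _).trans (by
            gcongr
            exact h z (by rw [hzr]; exact ha) (by rw [hzr]; exact ha'))
      _ = _ := by ring
  · exact ENNReal.ofReal_ne_top

/-- uniform square integrability of the weighted orbits -/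
lemma unif_sq (hT : IsGrp T) {K δ : ℝ} (hK : 0 < K) (hδ : 0 < δ)
    (h : ∀ z : ℂ, om T < z.re → z.re ≤ om T + δ → ‖Lap T z‖ ≤ K) :
    ∃ Q : ℝ, 0 < Q ∧ ∀ a : ℝ, om T < a → a ≤ om T + δ → ∀ x,
      ∫ t in Ioi (0 : ℝ), ‖orb T (a : ℂ) x t‖ ^ 2 ≤ (Q * ‖x‖) ^ 2 := by
  obtain ⟨M, hM, d, hd, hb⟩ := orb_bound hT (show om T < om T + δ by linarith)
  set S := ∫ t in Ioi (0 : ℝ), Real.exp (-(2 * d) * t) with hS
  have hS0 : 0 ≤ S := by positivity
  have hi := exp_neg_integrableOn_Ioi 0 (show 0 < 2 * d by linarith)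
  have h1 : ∀ x, ∫ t in Ioi (0 : ℝ), ‖orb T ((om T + δ : ℝ) : ℂ) x t‖ ^ 2 ≤
      (M * ‖x‖) ^ 2 * S := by
    intro x
    rw [hS, ← integral_const_mul]
    apply setIntegral_mono_on (sq_int hT (by simpa using hδ) x) (hi.const_mul _) measurableSet_Ioi
    intro t ht
    calc ‖orb T ((om T + δ : ℝ) : ℂ) x t‖ ^ 2 ≤ (M * ‖x‖ * Real.exp (-d * t)) ^ 2 := by
          gcongr
          exact hb _ (by simp) x t (le_of_lt ht)
      _ = (M * ‖x‖) ^ 2 * (Real.exp (-d * t)) ^ 2 := by ring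
      _ = _ := by rw [← Real.exp_nat_mul]; congr 2; push_cast; ring
  refine ⟨(1 + δ * K) * M * Real.sqrt (S + 1), by positivity, fun a ha ha' x => ?_⟩
  refine (compare hT hK hδ h ha ha' x).trans ?_
  calc (1 + δ * K) ^ 2 * ∫ t in Ioi (0 : ℝ), ‖orb T ((om T + δ : ℝ) : ℂ) x t‖ ^ 2
      ≤ (1 + δ * K) ^ 2 * ((M * ‖x‖) ^ 2 * (S + 1)) := by
        gcongr
        exact (h1 x).trans (by gcongr; linarith)
    _ = _ := by
        have : Real.sqrt (S + 1) ^ 2 = S + 1 := Real.sq_sqrt (by positivity)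
        rw [show ((1 + δ * K) * M * Real.sqrt (S + 1) * ‖x‖) ^ 2 =
          (1 + δ * K) ^ 2 * ((M * ‖x‖) ^ 2 * Real.sqrt (S + 1) ^ 2) by ring, this]

end Pool.Agent.Y838.PG
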