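import Pool.Agent.Y838.PG.Pos
import Pool.Agent.Y838.PG.Plan

/-!
# The growth bound of a positive group on an ordered Hilbert space is a spectral value
-/

set_option autoImplicit false

open Set Filter Topology MeasureTheory

noncomputable section

namespace Pool.Agent.Y838.PG

variable {H E : Type*} [NormedAddCommGroup H] [InnerProductSpace ℝ H] [CompleteSpace H]
  [NormedAddCommGroup E] [InnerProductSpace ℂ E] [CompleteSpace E]
  {T : ℝ → E →L[ℂ] E} {J : H →ₗ[ℝ] E} {C : Set H}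

omit [CompleteSpace E] in
lemma orb_mul (hT : IsGrp T) (a : ℝ) (x : E) (s t : ℝ) :
    ‖orb T (a : ℂ) x t‖ ≤ Real.exp (-(a * (t - s))) * ‖T (t - s)‖ * ‖orb T (a : ℂ) x s‖ := by
  rw [orb_norm, orb_norm, Complex.ofReal_re]
  have h1 : T t x = T (t - s) (T s x) := by
    have := hT.add (t - s) s
    rw [sub_add_cancel] at this
    rw [this]; rfl
  have h2 : Real.exp (-(a * t)) = Real.exp (-(a * (t - s))) * Real.exp (-(a * s)) := by
    rw [← Real.exp_add]; congr 1; ring
  rw [h1, h2]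
  calc Real.exp (-(a * (t - s))) * Real.exp (-(a * s)) * ‖T (t - s) (T s x)‖
      ≤ Real.exp (-(a * (t - s))) * Real.exp (-(a * s)) * (‖T (t - s)‖ * ‖T s x‖) := by
        gcongr
        exact (T (t - s)).le_opNorm _
    _ = _ := by ring

lemma datko (hT : IsGrp T) {a : ℝ} (ha : om T < a) {x : E} {Q : ℝ}
    (hI : ∫ t in Ioi (0 : ℝ), ‖orb T (a : ℂ) x t‖ ^ 2 ≤ (Q * ‖x‖) ^ 2) {t L B : ℝ} (hL : 0 ≤ L)
    (hLt : L ≤ t) (h : ∀ r, 0 ≤ r → r ≤ L → Real.exp (-(a * r)) * ‖T r‖ ≤ B) :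
    L * ‖orb T (a : ℂ) x t‖ ^ 2 ≤ B ^ 2 * (Q * ‖x‖) ^ 2 := by
  have hre : om T < ((a : ℂ)).re := by simpa using ha
  have hsub : Ioc (t - L) t ⊆ Ioi (0 : ℝ) := by
    intro s hs
    have := hs.1
    simp only [mem_Ioi]
    linarith
  have hi := sq_int hT hre x
  have h1 : ∫ s in Ioc (t - L) t, ‖orb T (a : ℂ) x t‖ ^ 2 = L * ‖orb T (a : ℂ) x t‖ ^ 2 := by
    rw [setIntegral_const, smul_eq_mul, Real.volume_real_Ioc_of_le (by linarith)]
    congr 1
    ring
  rw [← h1]
  calc ∫ s in Ioc (t - L) t, ‖orb T (a : ℂ) x t‖ ^ 2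
      ≤ ∫ s in Ioc (t - L) t, B ^ 2 * ‖orb T (a : ℂ) x s‖ ^ 2 := by
        apply setIntegral_mono_on
        · exact integrableOn_const (by simp)
        · exact (hi.mono_set hsub).const_mul _
        · exact measurableSet_Ioc
        · intro s hs
          rw [← mul_pow]
          gcongr
          refine (orb_mul hT a x s t).trans ?_
          gcongr
          exact h _ (by linarith [hs.2]) (by linarith [hs.1])
    _ = B ^ 2 * ∫ s in Ioc (t - L) t, ‖orb T (a : ℂ) x s‖ ^ 2 := integral_const_mul _ _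
    _ ≤ B ^ 2 * ∫ s in Ioi (0 : ℝ), ‖orb T (a : ℂ) x s‖ ^ 2 :=
        mul_le_mul_of_nonneg_left (setIntegral_mono_set hi (ae_of_all _ fun s => by positivity)
          (ae_of_all _ hsub)) (by positivity)
    _ ≤ _ := by gcongr

omit [CompleteSpace E] in
lemma opn {a t B : ℝ} (hB : 0 ≤ B) (h : ∀ x, ‖orb T (a : ℂ) x t‖ ≤ B * ‖x‖) :
    Real.exp (-(a * t)) * ‖T t‖ ≤ B := by
  have h1 : ‖T t‖ ≤ Real.exp (a * t) * B := by
    refine ContinuousLinearMap.opNorm_le_bound _ (by positivity) fun x => ?_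
    have h2 := h x
    rw [orb_norm, Complex.ofReal_re] at h2
    calc ‖T t x‖ = Real.exp (a * t) * (Real.exp (-(a * t)) * ‖T t x‖) := by
          rw [← mul_assoc, ← Real.exp_add, add_neg_cancel, Real.exp_zero, one_mul]
      _ ≤ Real.exp (a * t) * (B * ‖x‖) := by gcongr
      _ = _ := by ring
  calc Real.exp (-(a * t)) * ‖T t‖ ≤ Real.exp (-(a * t)) * (Real.exp (a * t) * B) := by gcongr
    _ = B := by rw [← mul_assoc, ← Real.exp_add, neg_add_cancel, Real.exp_zero, one_mul]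

/-- the growth bound of a positive group is a spectral value -/
theorem mem_spec [Nontrivial E] (hT : IsGrp T) (hJ : IsCplx J) (hC : OrdCone C)
    (hpos : ∀ t : ℝ, 0 ≤ t → ∀ x ∈ C, ∃ y ∈ C, T t (J x) = J y) : (om T : ℂ) ∈ Spec T := by
  rintro ⟨R, hR⟩
  obtain ⟨K, hK, δ, hδ, hu⟩ := unif hT hJ hC hpos hR
  obtain ⟨Q, hQ, hsq⟩ := unif_sq hT hK hδ hu
  obtain ⟨M, hM, hb⟩ := hT.bdd 1
  set B0 := Real.exp (|om T| + δ) * M with hB0
  have hB0p : 0 < B0 := by positivity
  have h1 : ∀ a, om T < a → a ≤ om T + δ → ∀ r, 0 ≤ r → r ≤ 1 →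
      Real.exp (-(a * r)) * ‖T r‖ ≤ B0 := by
    intro a ha ha' r hr hr'
    rw [hB0]
    gcongr
    · have h2 : |a| ≤ |om T| + δ := by
        rw [abs_le]
        constructor
        · linarith [neg_abs_le (om T)]
        · linarith [le_abs_self (om T)]
      calc -(a * r) ≤ |a * r| := neg_le_abs _
        _ = |a| * r := by rw [abs_mul, abs_of_nonneg hr]
        _ ≤ |a| * 1 := by gcongr
        _ ≤ _ := by rw [mul_one]; exact h2
    · exact hb r ⟨by linarith, hr'⟩
  set B1 := B0 * (Q + 1) with hB1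
  have hB1p : 0 < B1 := by positivity
  have h2 : ∀ a, om T < a → a ≤ om T + δ → ∀ t, 0 ≤ t →
      Real.exp (-(a * t)) * ‖T t‖ ≤ B1 := by
    intro a ha ha' t ht
    rcases le_total t 1 with h3 | h3
    · refine (h1 a ha ha' t ht h3).trans ?_
      rw [hB1]
      nlinarith
    · apply opn hB1p.le
      intro x
      have h4 := datko hT ha (hsq a ha ha' x) zero_le_one h3 (h1 a ha ha')
      rw [one_mul, ← mul_pow] at h4
      have h5 : ‖orb T (a : ℂ) x t‖ ≤ B0 * (Q * ‖x‖) :=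
        le_of_sq_le_sq h4 (by positivity)
      refine h5.trans ?_
      rw [hB1, ← mul_assoc]
      gcongr
      linarith
  have h3 : ∀ a, om T < a → a ≤ om T + δ → ∀ t, 0 < t →
      Real.exp (-(a * t)) * ‖T t‖ ≤ B1 * Q / Real.sqrt t := by
    intro a ha ha' t ht
    apply opn (by positivity)
    intro x
    have h4 := datko hT ha (hsq a ha ha' x) ht.le le_rfl (fun r hr _ => h2 a ha ha' r hr)
    have h5 : (Real.sqrt t * ‖orb T (a : ℂ) x t‖) ^ 2 ≤ (B1 * (Q * ‖x‖)) ^ 2 := by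
      rw [mul_pow, Real.sq_sqrt ht.le, mul_pow]
      exact h4
    have h6 : Real.sqrt t * ‖orb T (a : ℂ) x t‖ ≤ B1 * (Q * ‖x‖) :=
      le_of_sq_le_sq h5 (by positivity)
    have h7 : 0 < Real.sqrt t := Real.sqrt_pos.2 ht
    rw [div_mul_eq_mul_div, le_div_iff₀ h7]
    linarith
  -- pass to the limit in the exponent
  have h4 : ∀ t, 0 < t → (1 : ℝ) ≤ B1 * Q / Real.sqrt t := by
    intro t ht
    have h5 : Tendsto (fun a : ℝ => Real.exp (-(a * t)) * ‖T t‖) (𝓝[>] (om T))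
        (𝓝 (Real.exp (-(om T * t)) * ‖T t‖)) := by
      have : Continuous fun a : ℝ => Real.exp (-(a * t)) * ‖T t‖ := by fun_prop
      exact (this.tendsto _).mono_left nhdsWithin_le_nhds
    have h6 : Real.exp (-(om T * t)) * ‖T t‖ ≤ B1 * Q / Real.sqrt t := by
      refine le_of_tendsto h5 ?_
      filter_upwards [Ioc_mem_nhdsGT (show om T < om T + δ by linarith)] with a ha
      exact h3 a ha.1 ha.2 t ht
    refine le_trans ?_ h6
    calc (1 : ℝ) = Real.exp (-(om T * t)) * Real.exp (om T * t) := by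
          rw [← Real.exp_add, neg_add_cancel, Real.exp_zero]
      _ ≤ _ := by
          gcongr
          exact hT.low ht
  have h5 := h4 ((B1 * Q + 1) ^ 2) (by positivity)
  rw [Real.sqrt_sq (by positivity), le_div_iff₀ (by positivity)] at h5
  linarith

omit [CompleteSpace H] in
lemma Spec_le (hT : IsGrp T) {z : ℂ} (hz : z ∈ Spec T) : z.re ≤ om T := by
  by_contra hcon
  push Not at hcon
  exact hz ⟨Lap T z, Lap_res hT hcon⟩

end Pool.Agent.Y838.PG
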