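import Pool.Agent.Y838.PG.Lapl

/-!
# Domination of the Laplace transform of a positive group
-/

set_option autoImplicit false

open Set Filter Topology MeasureTheory

noncomputable section

namespace Pool.Agent.Y838.PG

variable {H E : Type*} [NormedAddCommGroup H] [InnerProductSpace ℝ H] [CompleteSpace H]
  [NormedAddCommGroup E] [InnerProductSpace ℂ E] [CompleteSpace E]
  {T : ℝ → E →L[ℂ] E} {J : H →ₗ[ℝ] E} {C : Set H}

lemma cone_int {α : Type*} [MeasurableSpace α] {μ : Measure α} (hC : OrdCone C) {g : α → H}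
    (hg : Integrable g μ) (h : ∀ a, g a ∈ C) : ∫ a, g a ∂μ ∈ C := by
  by_contra hcon
  have hconv : Convex ℝ C := by
    intro x hx y hy a b ha hb _
    exact hC.add _ (hC.smul a ha x hx) _ (hC.smul b hb y hy)
  obtain ⟨f, u, h1, h2⟩ := geometric_hahn_banach_point_closed hconv hC.closed hcon
  have hu : u < 0 := by simpa using h2 0 hC.zero
  have hp : ∀ b ∈ C, 0 ≤ f b := by
    intro b hb
    by_contra hneg
    push Not at hneg
    have h3 := h2 ((u / f b) • b) (hC.smul _ (div_nonneg_of_nonpos hu.le hneg.le) b hb)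
    rw [map_smul, smul_eq_mul, div_mul_cancel₀ _ hneg.ne] at h3
    exact lt_irrefl _ h3
  have h4 : f (∫ a, g a ∂μ) = ∫ a, f (g a) ∂μ := (f.integral_comp_comm hg).symm
  have h5 : 0 ≤ ∫ a, f (g a) ∂μ := integral_nonneg fun a => hp _ (h a)
  linarith

omit [CompleteSpace H] [CompleteSpace E] in
lemma IsCplx.norm (hJ : IsCplx J) (x : H) : ‖J x‖ = ‖x‖ := by
  have h := hJ.inner x x
  rw [inner_self_eq_norm_sq_to_K, real_inner_self_eq_norm_sq] at h
  have h2 : ‖J x‖ ^ 2 = ‖x‖ ^ 2 := by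
    apply Complex.ofReal_injective
    rw [← h]
    simp
  exact (sq_eq_sq₀ (norm_nonneg _) (norm_nonneg _)).1 h2

/-- the embedding as an isometry -/
def IsCplx.li (hJ : IsCplx J) : H →ₗᵢ[ℝ] E := ⟨J, hJ.norm⟩

lemma dom (hT : IsGrp T) (hJ : IsCplx J) (hC : OrdCone C)
    (hpos : ∀ t : ℝ, 0 ≤ t → ∀ x ∈ C, ∃ y ∈ C, T t (J x) = J y) :
    ∃ K : ℝ, 0 < K ∧ ∀ z : ℂ, om T < z.re → ∀ x ∈ C,
      ‖lapl T z (J x)‖ ≤ K * ‖lapl T (z.re : ℂ) (J x)‖ := by
  obtain ⟨c, hc, hn⟩ := hC.normal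
  refine ⟨2 * (2 * c + 1), by positivity, fun z hz x hx => ?_⟩
  choose y hy hTy using fun t : ℝ => hpos (max t 0) (le_max_right t 0) x hx
  set a := z.re with ha
  set b := z.im with hb
  set JJ := hJ.li with hJJ
  have hJJa : ∀ v, JJ v = J v := fun v => rfl
  have hyc : Continuous y := by
    rw [JJ.isometry.isEmbedding.continuous_iff]
    have : (JJ ∘ y) = fun t : ℝ => T (max t 0) (J x) := by
      ext t
      rw [hTy]; rfl
    rw [this]
    exact (hT.cont (J x)).comp (continuous_id.max continuous_const)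
  set g : ℝ → H := fun t => Real.exp (-(a * t)) • y t with hg
  have hgc : Continuous g := by
    have h : Continuous fun t : ℝ => Real.exp (-(a * t)) := by fun_prop
    exact h.smul hyc
  have hgC : ∀ t, g t ∈ C := fun t => hC.smul _ (Real.exp_pos _).le _ (hy t)
  have hre : om T < ((a : ℂ)).re := by simpa using hz
  have hgJ : ∀ t ∈ Ioi (0 : ℝ), JJ (g t) = orb T (a : ℂ) (J x) t := by
    intro t ht
    rw [hg]
    simp only [map_smul, hJJa, ← hTy]
    rw [max_eq_left (le_of_lt ht)]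
    unfold orb
    rw [show (-((a : ℂ) * t)) = ((-(a * t) : ℝ) : ℂ) by push_cast; ring, ← Complex.ofReal_exp,
      Complex.coe_smul]
  have hgi : IntegrableOn g (Ioi 0) := by
    refine Integrable.mono (orb_int hT hre (J x) 0) hgc.aestronglyMeasurable ?_
    filter_upwards [self_mem_ae_restrict measurableSet_Ioi] with t ht
    rw [← hgJ t ht, JJ.norm_map]
  set V := ∫ t in Ioi (0 : ℝ), g t with hV
  have hJV : JJ V = lapl T (a : ℂ) (J x) := by
    rw [hV]
    have h := JJ.toContinuousLinearMap.integral_comp_comm hgi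
    unfold lapl
    simp only [LinearIsometry.coe_toContinuousLinearMap] at h
    rw [← h]
    exact setIntegral_congr_fun measurableSet_Ioi hgJ
  -- the main estimate
  have key : ∀ φ : ℝ → ℝ, Continuous φ → (∀ t, |φ t| ≤ 1) →
      IntegrableOn (fun t => φ t • g t) (Ioi 0) ∧
      ‖∫ t in Ioi (0 : ℝ), φ t • g t‖ ≤ (2 * c + 1) * ‖V‖ := by
    intro φ hφ h1
    have hi : IntegrableOn (fun t => φ t • g t) (Ioi 0) := by
      refine Integrable.mono hgi (hφ.smul hgc).aestronglyMeasurable (ae_of_all _ fun t => ?_)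
      rw [norm_smul, Real.norm_eq_abs]
      exact mul_le_of_le_one_left (norm_nonneg _) (h1 t)
    refine ⟨hi, ?_⟩
    set U := ∫ t in Ioi (0 : ℝ), φ t • g t with hU
    have hp : V + U ∈ C := by
      rw [hV, hU, ← integral_add hgi hi]
      apply cone_int hC (hgi.add hi)
      intro t
      have h2 : g t + φ t • g t = (1 + φ t) • g t := by rw [add_smul, one_smul]
      show g t + φ t • g t ∈ C
      rw [h2]
      exact hC.smul _ (by linarith [(abs_le.1 (h1 t)).1]) _ (hgC t)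
    have hm : V - U ∈ C := by
      rw [hV, hU, ← integral_sub hgi hi]
      apply cone_int hC (hgi.sub hi)
      intro t
      have h2 : g t - φ t • g t = (1 - φ t) • g t := by rw [sub_smul, one_smul]
      show g t - φ t • g t ∈ C
      rw [h2]
      exact hC.smul _ (by linarith [(abs_le.1 (h1 t)).2]) _ (hgC t)
    have h3 := hn (V + U) ((2 : ℝ) • V) hp (by
      have : (2 : ℝ) • V - (V + U) = V - U := by rw [two_smul]; abel
      rwa [this])
    rw [norm_smul] at h3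
    have h4 : ‖U‖ ≤ ‖V + U‖ + ‖V‖ := by
      calc ‖U‖ = ‖(V + U) - V‖ := by congr 1; abel
        _ ≤ _ := norm_sub_le _ _
    have h5 : ‖(2 : ℝ)‖ = 2 := by norm_num
    rw [h5] at h3
    linarith
  obtain ⟨hi1, hb1⟩ := key (fun t => Real.cos (b * t)) (by fun_prop) (fun t => Real.abs_cos_le_one _)
  obtain ⟨hi2, hb2⟩ := key (fun t => Real.sin (b * t)) (by fun_prop) (fun t => Real.abs_sin_le_one _)
  set U1 := ∫ t in Ioi (0 : ℝ), Real.cos (b * t) • g t with hU1
  set U2 := ∫ t in Ioi (0 : ℝ), Real.sin (b * t) • g t with hU2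
  have h1 : JJ U1 = ∫ t in Ioi (0 : ℝ), JJ (Real.cos (b * t) • g t) :=
    (JJ.toContinuousLinearMap.integral_comp_comm hi1).symm
  have h2 : JJ U2 = ∫ t in Ioi (0 : ℝ), JJ (Real.sin (b * t) • g t) :=
    (JJ.toContinuousLinearMap.integral_comp_comm hi2).symm
  have h1i : IntegrableOn (fun t => JJ (Real.cos (b * t) • g t)) (Ioi 0) :=
    JJ.toContinuousLinearMap.integrable_comp hi1
  have h2i : IntegrableOn (fun t => JJ (Real.sin (b * t) • g t)) (Ioi 0) :=
    JJ.toContinuousLinearMap.integrable_comp hi2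
  have h3i : IntegrableOn (fun t => Complex.I • JJ (Real.sin (b * t) • g t)) (Ioi 0) :=
    h2i.smul Complex.I
  have h3 : lapl T z (J x) = JJ U1 - Complex.I • JJ U2 := by
    rw [h1, h2, ← integral_smul, ← integral_sub h1i h3i]
    unfold lapl
    refine setIntegral_congr_fun measurableSet_Ioi fun t ht => ?_
    simp only [map_smul, hgJ t ht]
    unfold orb
    have hexp : Complex.exp (-(z * t)) = Complex.exp (-((a : ℂ) * t)) *
        (((Real.cos (b * t) : ℝ) : ℂ) - Complex.I * ((Real.sin (b * t) : ℝ) : ℂ)) := by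
      have hz' : -(z * t) = -((a : ℂ) * t) + (((-(b * t) : ℝ)) : ℂ) * Complex.I := by
        conv_lhs => rw [← Complex.re_add_im z]
        rw [← ha, ← hb]
        push_cast; ring
      rw [hz', Complex.exp_add_mul_I, ← Complex.ofReal_cos, ← Complex.ofReal_sin, Real.cos_neg,
        Real.sin_neg]
      push_cast; ring
    rw [hexp, mul_sub, sub_smul]
    congr 1
    · rw [mul_comm, mul_smul, Complex.coe_smul]
    · rw [← Complex.coe_smul, smul_smul, smul_smul]
      congr 1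
      ring
  rw [h3, ← hJV, JJ.norm_map]
  calc ‖JJ U1 - Complex.I • JJ U2‖ ≤ ‖JJ U1‖ + ‖Complex.I • JJ U2‖ := norm_sub_le _ _
    _ = ‖U1‖ + ‖U2‖ := by rw [norm_smul, Complex.norm_I, one_mul, JJ.norm_map, JJ.norm_map]
    _ ≤ _ := by linarith

/-- if the growth bound is in the resolvent set, the resolvents are uniformly bounded near the
critical line -/
lemma unif (hT : IsGrp T) (hJ : IsCplx J) (hC : OrdCone C)
    (hpos : ∀ t : ℝ, 0 ≤ t → ∀ x ∈ C, ∃ y ∈ C, T t (J x) = J y) {R : E →L[ℂ] E}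
    (hR : IsRes T (om T : ℂ) R) :
    ∃ K : ℝ, 0 < K ∧ ∃ δ : ℝ, 0 < δ ∧ ∀ z : ℂ, om T < z.re → z.re ≤ om T + δ → ‖Lap T z‖ ≤ K := by
  set δ : ℝ := 1 / (2 * (‖R‖ + 1)) with hδ
  have hδ0 : 0 < δ := by positivity
  have hδ1 : δ * ‖R‖ ≤ 1 / 2 := by
    rw [hδ, div_mul_eq_mul_div, one_mul, div_le_div_iff₀ (by positivity) (by norm_num)]
    linarith
  have h1 : ∀ a : ℝ, om T < a → a ≤ om T + δ → ‖Lap T (a : ℂ)‖ ≤ 2 * ‖R‖ := by
    intro a ha ha'
    have h2 := Lap_res hT (z := (a : ℂ)) (by simpa using ha)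
    have h3 : ‖Lap T (a : ℂ)‖ ≤ ‖R‖ + δ * ‖R‖ * ‖Lap T (a : ℂ)‖ := by
      refine ContinuousLinearMap.opNorm_le_bound _ (by positivity) fun x => ?_
      have h4 := res_id h2 hR x
      have h5 : Lap T (a : ℂ) x = R x - ((a : ℂ) - (om T : ℂ)) • Lap T (a : ℂ) (R x) :=
        eq_sub_of_add_eq h4.symm
      rw [h5]
      have h6 : ‖((a : ℂ) - (om T : ℂ))‖ ≤ δ := by
        rw [← Complex.ofReal_sub, Complex.norm_real, Real.norm_eq_abs, abs_of_pos (by linarith)]
        linarith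
      calc ‖R x - ((a : ℂ) - (om T : ℂ)) • Lap T (a : ℂ) (R x)‖
          ≤ ‖R x‖ + ‖((a : ℂ) - (om T : ℂ)) • Lap T (a : ℂ) (R x)‖ := norm_sub_le _ _
        _ ≤ ‖R‖ * ‖x‖ + δ * (‖Lap T (a : ℂ)‖ * (‖R‖ * ‖x‖)) := by
            rw [norm_smul]
            gcongr
            · exact R.le_opNorm x
            · exact ((Lap T (a : ℂ)).le_opNorm _).trans (by gcongr; exact R.le_opNorm x)
        _ = _ := by ring
    have h7 : δ * ‖R‖ * ‖Lap T (a : ℂ)‖ ≤ 1 / 2 * ‖Lap T (a : ℂ)‖ := by gcongr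
    linarith
  obtain ⟨K0, hK0, hd⟩ := dom hT hJ hC hpos
  have h2 : ∀ z : ℂ, om T < z.re → z.re ≤ om T + δ → ∀ x ∈ C,
      ‖Lap T z (J x)‖ ≤ K0 * (2 * ‖R‖ * ‖x‖) := by
    intro z hz hz' x hx
    rw [Lap_apply hT hz]
    refine (hd z hz x hx).trans ?_
    gcongr
    rw [← Lap_apply hT (z := (z.re : ℂ)) (by simpa using hz)]
    refine ((Lap T (z.re : ℂ)).le_opNorm _).trans ?_
    rw [hJ.norm]
    gcongr
    exact h1 _ hz hz'
  obtain ⟨K, hK⟩ := banach_steinhaus
    (g := fun z : {z : ℂ // om T < z.re ∧ z.re ≤ om T + δ} => Lap T z.1) (by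
      intro w
      obtain ⟨x, y, rfl⟩ := hJ.span w
      obtain ⟨x1, hx1, x2, hx2, rfl⟩ := hC.gen x
      obtain ⟨y1, hy1, y2, hy2, rfl⟩ := hC.gen y
      refine ⟨K0 * (2 * ‖R‖ * ‖x1‖) + K0 * (2 * ‖R‖ * ‖x2‖) + (K0 * (2 * ‖R‖ * ‖y1‖) +
        K0 * (2 * ‖R‖ * ‖y2‖)), fun z => ?_⟩
      obtain ⟨z, hz, hz'⟩ := z
      simp only [map_add, map_sub, map_smul]
      refine (norm_add_le _ _).trans (add_le_add ?_ ?_)
      · exact (norm_sub_le _ _).trans (add_le_add (h2 z hz hz' x1 hx1) (h2 z hz hz' x2 hx2))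
      · rw [norm_smul, Complex.norm_I, one_mul]
        exact (norm_sub_le _ _).trans (add_le_add (h2 z hz hz' y1 hy1) (h2 z hz hz' y2 hy2)))
  exact ⟨max K 1, by positivity, δ, hδ0, fun z hz hz' => (hK ⟨z, hz, hz'⟩).trans (le_max_left _ _)⟩

end Pool.Agent.Y838.PG
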